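import Pool.Agent.H12.LT.Main

/-!
# The coincidences between the lines
-/

set_option autoImplicit false

open Polynomial Finset

namespace Pool.Agent.H12.LT

variable {p : ℕ} [Fact p.Prime]

/-- The polynomial `X + f(X + s) - f(X)`. -/
noncomputable def sh (f : (ZMod p)[X]) (s : ZMod p) : (ZMod p)[X] := X + (taylor s f - f)

theorem sh_eval (f : (ZMod p)[X]) (s y : ZMod p) :
    (sh f s).eval y = y + f.eval (y + s) - f.eval y := by
  unfold sh
  rw [eval_add, eval_sub, eval_X, taylor_eval]
  ring

theorem sub_natDegree {f : (ZMod p)[X]} (hf : 2 ≤ f.natDegree) (s : ZMod p) :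
    (taylor s f - f).natDegree ≤ f.natDegree - 1 := by
  rw [natDegree_le_iff_coeff_eq_zero]
  intro n hn
  rw [coeff_sub]
  rcases (show n = f.natDegree ∨ f.natDegree < n by omega) with h | h
  · rw [h, taylor_coeff, hasseDeriv_natDegree_eq_C, eval_C, coeff_natDegree, sub_self]
  · rw [coeff_eq_zero_of_natDegree_lt h, coeff_eq_zero_of_natDegree_lt, sub_zero]
    rwa [natDegree_taylor]

theorem sh_natDegree {f : (ZMod p)[X]} (hf : 2 ≤ f.natDegree) (s : ZMod p) :
    (sh f s).natDegree ≤ f.natDegree - 1 := by
  unfold sh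
  refine natDegree_add_le_of_degree_le ?_ (sub_natDegree hf s)
  rw [natDegree_X]
  omega

theorem sub_coeff {f : (ZMod p)[X]} (hf : 2 ≤ f.natDegree) (s : ZMod p) :
    (taylor s f - f).coeff (f.natDegree - 1) = (f.natDegree : ZMod p) * f.leadingCoeff * s := by
  rw [coeff_sub, taylor_coeff]
  have h1 : (hasseDeriv (f.natDegree - 1) f).natDegree < 2 := by
    have := natDegree_hasseDeriv_le f (f.natDegree - 1)
    omega
  rw [eval_eq_sum_range' h1, Finset.sum_range_succ, Finset.sum_range_one, hasseDeriv_coeff,
    hasseDeriv_coeff, pow_zero, pow_one, zero_add, Nat.choose_self,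
    show 1 + (f.natDegree - 1) = f.natDegree by omega, coeff_natDegree]
  have h2 : f.natDegree.choose (f.natDegree - 1) = f.natDegree := by
    rw [Nat.choose_symm_of_eq_add (show f.natDegree = (f.natDegree - 1) + 1 by omega),
      Nat.choose_one_right]
  rw [h2]
  push_cast
  ring

/-- Two different shifts can not both be degenerate. -/
theorem bad_unique {f : (ZMod p)[X]} (hf : 2 ≤ f.natDegree) (hd : (f.natDegree : ZMod p) ≠ 0)
    {s s' c c' : ZMod p} (_hs : s ≠ 0) (h : sh f s = C c) (h' : sh f s' = C c') : s = s' := by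
  have hl : f.leadingCoeff ≠ 0 := by
    rw [Ne, leadingCoeff_eq_zero]
    intro h0
    rw [h0, natDegree_zero] at hf
    omega
  have key : ∀ s c : ZMod p, sh f s = C c → (if f.natDegree - 1 = 1 then (1 : ZMod p) else 0) +
      (f.natDegree : ZMod p) * f.leadingCoeff * s = 0 := by
    intro s c h
    have h1 := congrArg (fun g : (ZMod p)[X] => g.coeff (f.natDegree - 1)) h
    simp only [sh, coeff_add, sub_coeff hf, coeff_X, coeff_C] at h1
    rw [if_neg (show ¬ f.natDegree - 1 = 0 by omega)] at h1
    have e : (if f.natDegree - 1 = 1 then (1 : ZMod p) else 0) =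
        if 1 = f.natDegree - 1 then 1 else 0 := by
      by_cases hh : f.natDegree - 1 = 1
      · rw [if_pos hh, if_pos hh.symm]
      · rw [if_neg hh, if_neg fun h => hh h.symm]
    rw [e]
    exact h1
  have h1 := key s c h
  have h2 := key s' c' h'
  have h3 : (f.natDegree : ZMod p) * f.leadingCoeff * (s - s') = 0 := by
    linear_combination h1 - h2
  exact sub_eq_zero.1 ((mul_eq_zero.1 h3).resolve_left (mul_ne_zero hd hl))

open Classical in
theorem card_fib {f : (ZMod p)[X]} (hf : 2 ≤ f.natDegree) (A B : Finset (ZMod p))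
    (q : ZMod p × ZMod p) :
    ((prs A B).filter fun r => q.1 - q.2 = r.1 - r.2 ∧
      q.2 + f.eval q.1 - f.eval q.2 = r.2 + f.eval r.1 - f.eval r.2).card ≤
    (f.natDegree - 1) +
      if ∃ c, sh f (q.1 - q.2) = C c then min A.card B.card else 0 := by
  set s := q.1 - q.2 with hs
  set c := q.2 + f.eval q.1 - f.eval q.2 with hc
  have hinj : Set.InjOn (fun r : ZMod p × ZMod p => r.2) ((prs A B).filter fun r =>
      s = r.1 - r.2 ∧ c = r.2 + f.eval r.1 - f.eval r.2 : Finset (ZMod p × ZMod p)) := by
    intro r hr r' hr' h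
    rw [mem_coe, mem_filter] at hr hr'
    have h2 : r.2 = r'.2 := h
    have h1 : r.1 = r'.1 := by
      have e1 := hr.2.1
      have e2 := hr'.2.1
      linear_combination h2 - e1 + e2
    exact Prod.ext h1 h2
  by_cases hb : ∃ c, sh f s = C c
  · rw [if_pos hb]
    refine le_trans ?_ (Nat.le_add_left _ _)
    apply le_min
    · apply card_le_card_of_injOn (fun r : ZMod p × ZMod p => r.1)
      · intro r hr
        rw [mem_coe, mem_filter, prs, mem_filter, mem_product] at hr
        exact hr.1.1.1
      · intro r hr r' hr' h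
        rw [mem_coe, mem_filter] at hr hr'
        have h2 : r.1 = r'.1 := h
        have e1 := hr.2.1
        have e2 := hr'.2.1
        exact Prod.ext h2 (by linear_combination h2 + e1 - e2)
    · apply card_le_card_of_injOn _ _ hinj
      intro r hr
      rw [mem_coe, mem_filter, prs, mem_filter, mem_product] at hr
      exact hr.1.1.2
  · rw [if_neg hb, add_zero]
    have h0 : sh f s - C c ≠ 0 := fun h => hb ⟨c, sub_eq_zero.1 h⟩
    calc ((prs A B).filter fun r => s = r.1 - r.2 ∧ c = r.2 + f.eval r.1 - f.eval r.2).card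
        ≤ (sh f s - C c).roots.toFinset.card := by
          apply card_le_card_of_injOn _ _ hinj
          intro r hr
          rw [mem_coe, mem_filter] at hr
          rw [mem_coe, Multiset.mem_toFinset, mem_roots h0, IsRoot, eval_sub, eval_C, sh_eval,
            hr.2.1, hr.2.2]
          ring_nf
      _ ≤ (sh f s - C c).roots.card := Multiset.toFinset_card_le _
      _ ≤ (sh f s - C c).natDegree := card_roots' _
      _ = (sh f s).natDegree := natDegree_sub_C
      _ ≤ f.natDegree - 1 := sh_natDegree hf s

open Classical in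
theorem coi_le {f : (ZMod p)[X]} (hf : 2 ≤ f.natDegree) (hd : (f.natDegree : ZMod p) ≠ 0)
    (A B : Finset (ZMod p)) : coi A B f ≤ f.natDegree * (A.card * B.card) := by
  have h1 : coi A B f = ∑ q ∈ prs A B, ((prs A B).filter fun r => q.1 - q.2 = r.1 - r.2 ∧
      q.2 + f.eval q.1 - f.eval q.2 = r.2 + f.eval r.1 - f.eval r.2).card := by
    unfold coi
    simp only [card_filter]
    rw [sum_product]
  have hbb : ∀ r ∈ (prs A B).filter (fun q => ∃ c, sh f (q.1 - q.2) = C c),
      ∀ r' ∈ (prs A B).filter (fun q => ∃ c, sh f (q.1 - q.2) = C c),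
      r.1 - r.2 = r'.1 - r'.2 := by
    intro r hr r' hr'
    rw [mem_filter, prs, mem_filter] at hr hr'
    obtain ⟨⟨-, hne⟩, c, hc⟩ := hr
    obtain ⟨-, c', hc'⟩ := hr'
    exact bad_unique hf hd (sub_ne_zero.2 hne) hc hc'
  have h2 : ((prs A B).filter fun q => ∃ c, sh f (q.1 - q.2) = C c).card ≤
      min A.card B.card := by
    apply le_min
    · apply card_le_card_of_injOn (fun r : ZMod p × ZMod p => r.1)
      · intro r hr
        rw [mem_coe, mem_filter, prs, mem_filter, mem_product] at hr
        exact hr.1.1.1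
      · intro r hr r' hr' h
        have h2 : r.1 = r'.1 := h
        have h3 := hbb r (mem_coe.1 hr) r' (mem_coe.1 hr')
        exact Prod.ext h2 (by linear_combination h2 - h3)
    · apply card_le_card_of_injOn (fun r : ZMod p × ZMod p => r.2)
      · intro r hr
        rw [mem_coe, mem_filter, prs, mem_filter, mem_product] at hr
        exact hr.1.1.2
      · intro r hr r' hr' h
        have h2 : r.2 = r'.2 := h
        have h3 := hbb r (mem_coe.1 hr) r' (mem_coe.1 hr')
        exact Prod.ext (by linear_combination h3 + h2) h2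
  have h3 : (prs A B).card ≤ A.card * B.card := by
    rw [← card_product]
    exact card_le_card (filter_subset _ _)
  have h4 : min A.card B.card * min A.card B.card ≤ A.card * B.card :=
    Nat.mul_le_mul (min_le_left _ _) (min_le_right _ _)
  rw [h1]
  calc ∑ q ∈ prs A B, ((prs A B).filter fun r => q.1 - q.2 = r.1 - r.2 ∧
        q.2 + f.eval q.1 - f.eval q.2 = r.2 + f.eval r.1 - f.eval r.2).card
      ≤ ∑ q ∈ prs A B, ((f.natDegree - 1) +
          if ∃ c, sh f (q.1 - q.2) = C c then min A.card B.card else 0) :=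
        sum_le_sum fun q _ => card_fib hf A B q
    _ = (prs A B).card * (f.natDegree - 1) +
          ((prs A B).filter fun q => ∃ c, sh f (q.1 - q.2) = C c).card *
            min A.card B.card := by
        rw [sum_add_distrib, sum_const, smul_eq_mul, ← sum_filter, sum_const, smul_eq_mul]
    _ ≤ A.card * B.card * (f.natDegree - 1) + min A.card B.card * min A.card B.card :=
        add_le_add (Nat.mul_le_mul_right _ h3) (Nat.mul_le_mul_right _ h2)
    _ ≤ A.card * B.card * (f.natDegree - 1) + A.card * B.card := Nat.add_le_add_left h4 _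
    _ = f.natDegree * (A.card * B.card) := by
        obtain ⟨e, he⟩ : ∃ e, f.natDegree = e + 1 := ⟨f.natDegree - 1, by omega⟩
        rw [he, Nat.add_sub_cancel]
        ring

end Pool.Agent.H12.LT
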