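import Pool.Agent.H12.LT.Fin

/-!
# Dense sets
-/

set_option autoImplicit false

open Polynomial Finset

namespace Pool.Agent.H12.LT

/-- `A` has a pattern of `Q`. -/
def HasPat {p : ℕ} (A : Finset (ZMod p)) (Q : (ZMod p)[X]) : Prop :=
  ∃ x ∈ A, ∃ y ∈ A, x ≠ y ∧ y + Q.eval x - Q.eval y ∈ A

theorem card_prs {p : ℕ} [Fact p.Prime] (A : Finset (ZMod p)) :
    (prs A A).card = A.card * (A.card - 1) := by
  have h : prs A A = A.offDiag := by
    ext q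
    rw [prs, mem_filter, mem_product, mem_offDiag]
    exact and_assoc
  rw [h, offDiag_card, Nat.mul_sub_one]

theorem pat_pos {p : ℕ} [Fact p.Prime] {A : Finset (ZMod p)} {Q : (ZMod p)[X]}
    (h : ¬ HasPat A Q) : pat A A A Q = 0 := by
  unfold pat
  rw [card_eq_zero, filter_eq_empty_iff]
  intro q hq hA
  rw [prs, mem_filter, mem_product] at hq
  exact h ⟨q.1, hq.1.1, q.2, hq.1.2, hq.2, hA⟩

theorem real_bound {p n N K : ℕ} (hp : 100 ≤ p) (hn : (p : ℝ) ^ (0.99 : ℝ) < n)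
    (h : N * (n * (n * (n - 1)) ^ 2) ≤ K * p ^ 3 * (n * n)) :
    (N : ℝ) ≤ 5 / 4 * K * (p : ℝ) ^ (0.03 : ℝ) := by
  have hpR : (100 : ℝ) ≤ p := by exact_mod_cast hp
  have hp0 : (0 : ℝ) < p := by linarith
  set a : ℝ := (p : ℝ) ^ (0.99 : ℝ) with ha
  have ha10 : 10 ≤ a := by
    have h1 : (10 : ℝ) = (100 : ℝ) ^ (0.5 : ℝ) := by
      rw [show (100 : ℝ) = 10 ^ (2 : ℝ) by norm_num, ← Real.rpow_mul (by norm_num)]
      norm_num
    rw [h1, ha]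
    calc (100 : ℝ) ^ (0.5 : ℝ) ≤ (p : ℝ) ^ (0.5 : ℝ) :=
          Real.rpow_le_rpow (by norm_num) hpR (by norm_num)
      _ ≤ (p : ℝ) ^ (0.99 : ℝ) :=
          Real.rpow_le_rpow_of_exponent_le (by linarith) (by norm_num)
  have hn1 : 1 ≤ n := by
    have : (0 : ℝ) < n := by linarith
    exact_mod_cast this
  have h2 : (N : ℝ) * (n * (n * (n - 1)) ^ 2) ≤ K * p ^ 3 * (n * n) := by
    have h3 : ((N * (n * (n * (n - 1)) ^ 2) : ℕ) : ℝ) ≤ ((K * p ^ 3 * (n * n) : ℕ) : ℝ) := by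
      exact_mod_cast h
    push_cast [Nat.cast_sub hn1] at h3
    exact h3
  have hnR : (0 : ℝ) < n := by linarith
  have h4 : (N : ℝ) * (n * (n - 1) ^ 2) ≤ K * p ^ 3 := by
    have h5 : ((n : ℝ) * n) * ((N : ℝ) * (n * (n - 1) ^ 2)) ≤ (n * n) * (K * p ^ 3) := by
      nlinarith
    exact le_of_mul_le_mul_left h5 (by positivity)
  have h6 : 4 / 5 * a ^ 3 ≤ (n : ℝ) * (n - 1) ^ 2 := by
    have h7 : 9 / 10 * a ≤ (n : ℝ) - 1 := by linarith
    have h8 : (9 / 10 * a) ^ 2 ≤ ((n : ℝ) - 1) ^ 2 := pow_le_pow_left₀ (by positivity) h7 2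
    calc 4 / 5 * a ^ 3 ≤ a * (9 / 10 * a) ^ 2 := by
          have : 0 ≤ a ^ 3 := by positivity
          nlinarith
      _ ≤ (n : ℝ) * ((n : ℝ) - 1) ^ 2 := mul_le_mul hn.le h8 (by positivity) hnR.le
  have h9 : a ^ 3 * (p : ℝ) ^ (0.03 : ℝ) = p ^ 3 := by
    rw [ha, ← Real.rpow_natCast ((p : ℝ) ^ (0.99 : ℝ)) 3, ← Real.rpow_mul hp0.le,
      ← Real.rpow_add hp0, ← Real.rpow_natCast (p : ℝ) 3]
    norm_num
  have ha3 : 0 < a ^ 3 := by positivity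
  have h10 : a ^ 3 * N ≤ a ^ 3 * (5 / 4 * K * (p : ℝ) ^ (0.03 : ℝ)) := by
    calc a ^ 3 * N = 5 / 4 * (N * (4 / 5 * a ^ 3)) := by ring
      _ ≤ 5 / 4 * ((N : ℝ) * (n * ((n : ℝ) - 1) ^ 2)) := by
          apply mul_le_mul_of_nonneg_left _ (by norm_num)
          exact mul_le_mul_of_nonneg_left h6 (Nat.cast_nonneg _)
      _ ≤ 5 / 4 * ((K : ℝ) * (p : ℝ) ^ 3) := mul_le_mul_of_nonneg_left h4 (by norm_num)
      _ = 5 / 4 * ((K : ℝ) * (a ^ 3 * (p : ℝ) ^ (0.03 : ℝ))) := by rw [h9]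
      _ = a ^ 3 * (5 / 4 * K * (p : ℝ) ^ (0.03 : ℝ)) := by ring
  exact le_of_mul_le_mul_left h10 ha3

theorem dense_twist {p : ℕ} [Fact p.Prime] (hp : 100 ≤ p) {P : (ZMod p)[X]}
    (hP : 2 ≤ P.natDegree) (hd : (P.natDegree : ZMod p) ≠ 0) {A : Finset (ZMod p)}
    (hA : (p : ℝ) ^ (0.99 : ℝ) < A.card) :
    ({t : ZMod p | ¬ HasPat A (P + C t * X)}.ncard : ℝ) ≤
      5 * P.natDegree * (p : ℝ) ^ (0.03 : ℝ) := by
  have h1 := card_bad hP hd A A A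
  rw [card_prs] at h1
  have h2 := real_bound hp hA h1
  have h3 : {t : ZMod p | ¬ HasPat A (P + C t * X)}.ncard ≤ (bad A A A P).card := by
    rw [← Set.ncard_coe_finset]
    apply Set.ncard_le_ncard _ (Set.toFinite _)
    intro t ht
    rw [mem_coe, bad, mem_filter]
    refine ⟨mem_univ _, ?_⟩
    rw [pat_pos ht, card_prs, mul_zero]
    have h4 : (2 : ℝ) < A.card := by
      have h5 : (100 : ℝ) ≤ p := by exact_mod_cast hp
      have h6 : (10 : ℝ) ≤ (p : ℝ) ^ (0.99 : ℝ) := by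
        have h1 : (10 : ℝ) = (100 : ℝ) ^ (0.5 : ℝ) := by
          rw [show (100 : ℝ) = 10 ^ (2 : ℝ) by norm_num, ← Real.rpow_mul (by norm_num)]
          norm_num
        rw [h1]
        calc (100 : ℝ) ^ (0.5 : ℝ) ≤ (p : ℝ) ^ (0.5 : ℝ) :=
              Real.rpow_le_rpow (by norm_num) h5 (by norm_num)
          _ ≤ (p : ℝ) ^ (0.99 : ℝ) :=
              Real.rpow_le_rpow_of_exponent_le (by linarith) (by norm_num)
      linarith
    have h7 : 2 < A.card := by exact_mod_cast h4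
    have h8 : 0 < A.card - 1 := by omega
    positivity
  calc ({t : ZMod p | ¬ HasPat A (P + C t * X)}.ncard : ℝ) ≤ (bad A A A P).card := by
        exact_mod_cast h3
    _ ≤ 5 / 4 * (4 * P.natDegree : ℕ) * (p : ℝ) ^ (0.03 : ℝ) := h2
    _ = 5 * P.natDegree * (p : ℝ) ^ (0.03 : ℝ) := by push_cast; ring

end Pool.Agent.H12.LT
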