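import Pool.Agent.H12.LT.Coi

/-!
# Few exceptional twists
-/

set_option autoImplicit false

open Polynomial Finset

namespace Pool.Agent.H12.LT

variable {p : ℕ} [Fact p.Prime]

/-- The number of the pairs `x ≠ y`, `x ∈ A`, `y ∈ B`, with `y + g(x) - g(y) ∈ E`. -/
def pat (A B E : Finset (ZMod p)) (g : (ZMod p)[X]) : ℕ :=
  ((prs A B).filter fun q => q.2 + g.eval q.1 - g.eval q.2 ∈ E).card

theorem pat_twist (A B E : Finset (ZMod p)) (f : (ZMod p)[X]) (t : ZMod p) :
    pat A B E (f + C t * X) = ∑ z ∈ E, cnt A B f t z := by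
  unfold pat
  rw [card_eq_sum_card_fiberwise (f := fun q : ZMod p × ZMod p =>
    q.2 + (f + C t * X).eval q.1 - (f + C t * X).eval q.2) (t := E)
    (by intro q hq; exact (mem_filter.1 (mem_coe.1 hq)).2)]
  apply sum_congr rfl
  intro z hz
  unfold cnt
  congr 1
  ext q
  simp only [mem_filter, eval_add, eval_mul, eval_C, eval_X]
  constructor
  · rintro ⟨⟨h1, h2⟩, h3⟩
    exact ⟨h1, by rw [← h3]; ring⟩
  · rintro ⟨h1, h2⟩
    have h3 : q.2 + (f.eval q.1 + t * q.1) - (f.eval q.2 + t * q.2) = z := by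
      rw [← h2]; ring
    exact ⟨⟨h1, by rw [h3]; exact hz⟩, h3⟩

/-- The exceptional twists. -/
noncomputable def bad (A B E : Finset (ZMod p)) (f : (ZMod p)[X]) : Finset (ZMod p) :=
  univ.filter fun t => 2 * p * pat A B E (f + C t * X) < E.card * (prs A B).card

theorem card_bad {f : (ZMod p)[X]} (hf : 2 ≤ f.natDegree) (hd : (f.natDegree : ZMod p) ≠ 0)
    (A B E : Finset (ZMod p)) :
    (bad A B E f).card * (E.card * (prs A B).card ^ 2) ≤
      4 * f.natDegree * p ^ 3 * (A.card * B.card) := by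
  rcases Nat.eq_zero_or_pos E.card with h0 | hE
  · rw [h0]
    simp
  have hp0 : 0 < p := (Fact.out : p.Prime).pos
  set n := E.card with hn
  set d := f.natDegree with hdd
  set m : ℕ := A.card * B.card with hm
  have hpR : (0 : ℝ) < p := by exact_mod_cast hp0
  have hnR : (1 : ℝ) ≤ n := by exact_mod_cast hE
  set D : ℝ := ((prs A B).card : ℝ) with hDdef
  have hD0 : 0 ≤ D := Nat.cast_nonneg _
  -- the variance
  have hvar : ∑ t : ZMod p, ∑ z, ((p : ℝ) * cnt A B f t z - D) ^ 2 ≤ (p : ℝ) ^ 3 * (d * m) := by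
    have e1 : ∀ t : ZMod p, ∑ z, ((p : ℝ) * cnt A B f t z - D) ^ 2 =
        (p : ℝ) ^ 2 * (∑ z, (cnt A B f t z : ℝ) ^ 2) - p * D ^ 2 := by
      intro t
      have e2 : ∑ z, (cnt A B f t z : ℝ) = D := by
        rw [hDdef, ← sum_cnt A B f t]
        push_cast
        rfl
      have e3 : ∀ z, ((p : ℝ) * cnt A B f t z - D) ^ 2 =
          (p : ℝ) ^ 2 * (cnt A B f t z : ℝ) ^ 2 - 2 * p * D * cnt A B f t z + D ^ 2 :=
        fun z => by ring
      simp only [e3]
      rw [sum_add_distrib, sum_sub_distrib, ← mul_sum, ← mul_sum, e2, sum_const, card_univ,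
        ZMod.card, nsmul_eq_mul]
      ring
    simp only [e1]
    rw [sum_sub_distrib, ← mul_sum, sum_const, card_univ, ZMod.card, nsmul_eq_mul]
    have e4 : ∑ t : ZMod p, ∑ z, (cnt A B f t z : ℝ) ^ 2 ≤ D ^ 2 + p * (d * m) := by
      have h1 := sum_cnt_sq A B f
      have h2 := coi_le hf hd A B
      have h3 : (((∑ t : ZMod p, ∑ z, cnt A B f t z ^ 2 : ℕ)) : ℝ) ≤
          (((prs A B).card ^ 2 + p * (d * m) : ℕ) : ℝ) := by
        exact_mod_cast h1.trans (Nat.add_le_add_left (Nat.mul_le_mul_left _ h2) _)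
      push_cast at h3
      exact h3
    nlinarith [mul_le_mul_of_nonneg_left e4 (sq_nonneg (p : ℝ))]
  -- every exceptional twist contributes
  have hbad : ∀ t ∈ bad A B E f,
      (n : ℝ) * D ^ 2 / 4 ≤ ∑ z, ((p : ℝ) * cnt A B f t z - D) ^ 2 := by
    intro t ht
    have h1 : 2 * p * pat A B E (f + C t * X) < n * (prs A B).card := (mem_filter.1 ht).2
    have h2 : 2 * (p : ℝ) * ∑ z ∈ E, (cnt A B f t z : ℝ) ≤ n * D := by
      have h3 : ((2 * p * pat A B E (f + C t * X) : ℕ) : ℝ) ≤ ((n * (prs A B).card : ℕ) : ℝ) := by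
        exact_mod_cast h1.le
      rw [pat_twist] at h3
      push_cast at h3
      exact h3
    have h4 : (∑ z ∈ E, (D - (p : ℝ) * cnt A B f t z)) ^ 2 ≤
        (E.card : ℝ) * ∑ z ∈ E, (D - (p : ℝ) * cnt A B f t z) ^ 2 := sq_sum_le_card_mul_sum_sq
    have h5 : ∑ z ∈ E, (D - (p : ℝ) * cnt A B f t z) =
        n * D - p * ∑ z ∈ E, (cnt A B f t z : ℝ) := by
      rw [sum_sub_distrib, sum_const, nsmul_eq_mul, mul_sum]
    have h6 : (n * D / 2) ^ 2 ≤ (∑ z ∈ E, (D - (p : ℝ) * cnt A B f t z)) ^ 2 := by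
      rw [h5]
      apply pow_le_pow_left₀ (by positivity)
      linarith
    have h7 : ∑ z ∈ E, (D - (p : ℝ) * cnt A B f t z) ^ 2 ≤
        ∑ z, ((p : ℝ) * cnt A B f t z - D) ^ 2 := by
      calc ∑ z ∈ E, (D - (p : ℝ) * cnt A B f t z) ^ 2
          = ∑ z ∈ E, ((p : ℝ) * cnt A B f t z - D) ^ 2 := sum_congr rfl fun z _ => by ring
        _ ≤ _ := sum_le_sum_of_subset_of_nonneg (subset_univ _) fun _ _ _ => sq_nonneg _
    have h8 : (n : ℝ) * (n * D ^ 2 / 4) ≤
        n * ∑ z, ((p : ℝ) * cnt A B f t z - D) ^ 2 := by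
      calc (n : ℝ) * (n * D ^ 2 / 4) = (n * D / 2) ^ 2 := by ring
        _ ≤ _ := h6
        _ ≤ _ := h4
        _ ≤ _ := mul_le_mul_of_nonneg_left h7 (by positivity)
    exact le_of_mul_le_mul_left h8 (by linarith)
  have hsum : ((bad A B E f).card : ℝ) * (n * D ^ 2 / 4) ≤ (p : ℝ) ^ 3 * (d * m) := by
    calc ((bad A B E f).card : ℝ) * (n * D ^ 2 / 4)
        = ∑ t ∈ bad A B E f, (n : ℝ) * D ^ 2 / 4 := by rw [sum_const, nsmul_eq_mul]
      _ ≤ ∑ t ∈ bad A B E f, ∑ z, ((p : ℝ) * cnt A B f t z - D) ^ 2 := sum_le_sum hbad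
      _ ≤ ∑ t : ZMod p, ∑ z, ((p : ℝ) * cnt A B f t z - D) ^ 2 :=
          sum_le_sum_of_subset_of_nonneg (subset_univ _) fun _ _ _ =>
            sum_nonneg fun _ _ => sq_nonneg _
      _ ≤ _ := hvar
  have hc : (((bad A B E f).card * (n * (prs A B).card ^ 2) : ℕ) : ℝ) ≤
      ((4 * d * p ^ 3 * m : ℕ) : ℝ) := by
    push_cast
    rw [← hDdef]
    linarith
  exact_mod_cast hc

theorem eval_quad {P : (ZMod p)[X]} (hP : P.natDegree = 2) (x y s : ZMod p) :
    P.eval (x + s) - P.eval (y + s) =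
      P.eval x - P.eval y + 2 * P.leadingCoeff * s * (x - y) := by
  have h : ∀ z : ZMod p, P.eval z = P.coeff 0 + P.coeff 1 * z + P.coeff 2 * z ^ 2 := by
    intro z
    rw [eval_eq_sum_range, hP, sum_range_succ, sum_range_succ, sum_range_one, pow_zero, pow_one,
      mul_one]
  rw [leadingCoeff, hP, h, h, h, h]
  ring

theorem pat_translate {P : (ZMod p)[X]} (hP : P.natDegree = 2) (A B E : Finset (ZMod p))
    (s : ZMod p) : pat (A.image (· + s)) (B.image (· + s)) (E.image (· + s)) P =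
      pat A B E (P + C (2 * P.leadingCoeff * s) * X) := by
  unfold pat prs
  symm
  apply card_bij (fun q _ => (q.1 + s, q.2 + s))
  · intro q hq
    rw [mem_filter, mem_filter, mem_product] at hq
    obtain ⟨⟨⟨h1, h2⟩, h3⟩, h4⟩ := hq
    rw [mem_filter, mem_filter, mem_product]
    refine ⟨⟨⟨mem_image_of_mem _ h1, mem_image_of_mem _ h2⟩, fun h => h3 (add_right_cancel h)⟩, ?_⟩
    rw [mem_image]
    refine ⟨_, h4, ?_⟩
    have h5 := eval_quad hP q.1 q.2 s
    simp only [eval_add, eval_mul, eval_C, eval_X]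
    linear_combination -h5
  · intro q _ r _ h
    rw [Prod.mk.injEq] at h
    exact Prod.ext (add_right_cancel h.1) (add_right_cancel h.2)
  · intro r hr
    rw [mem_filter, mem_filter, mem_product] at hr
    obtain ⟨⟨⟨h1, h2⟩, h3⟩, h4⟩ := hr
    rw [mem_image] at h1 h2 h4
    obtain ⟨x, hx, hx'⟩ := h1
    obtain ⟨y, hy, hy'⟩ := h2
    obtain ⟨z, hz, hz'⟩ := h4
    refine ⟨(x, y), ?_, Prod.ext hx' hy'⟩
    rw [mem_filter, mem_filter, mem_product]
    refine ⟨⟨⟨hx, hy⟩, fun h => h3 (by rw [← hx', ← hy']; exact congrArg (· + s) h)⟩, ?_⟩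
    have h5 := eval_quad hP x y s
    have h6 : y + (P + C (2 * P.leadingCoeff * s) * X).eval x -
        (P + C (2 * P.leadingCoeff * s) * X).eval y = z := by
      simp only [eval_add, eval_mul, eval_C, eval_X]
      have hx2 : x + s = r.1 := hx'
      have hy2 : y + s = r.2 := hy'
      have hz2 : z + s = r.2 + P.eval r.1 - P.eval r.2 := hz'
      rw [← hx2, ← hy2] at hz2
      linear_combination -h5 - hz2
    rw [h6]
    exact hz

theorem card_bad_translate {P : (ZMod p)[X]} (hP : P.natDegree = 2) (hp : p ≠ 2)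
    (A B E : Finset (ZMod p)) :
    (univ.filter fun s : ZMod p =>
      2 * p * pat (A.image (· + s)) (B.image (· + s)) (E.image (· + s)) P <
      E.card * (prs A B).card).card * (E.card * (prs A B).card ^ 2) ≤
      8 * p ^ 3 * (A.card * B.card) := by
  have h2 : ((2 : ℕ) : ZMod p) ≠ 0 := by
    intro h
    rw [ZMod.natCast_eq_zero_iff] at h
    exact hp (((Nat.prime_dvd_prime_iff_eq (Fact.out : p.Prime) Nat.prime_two).1 h))
  have hl : P.leadingCoeff ≠ 0 := by
    rw [Ne, leadingCoeff_eq_zero]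
    intro h0
    rw [h0, natDegree_zero] at hP
    omega
  have hd : (P.natDegree : ZMod p) ≠ 0 := by rw [hP]; exact h2
  have h1 := card_bad (f := P) (by omega) hd A B E
  rw [hP] at h1
  refine le_trans (Nat.mul_le_mul_right _ ?_) (h1.trans_eq (by ring))
  apply card_le_card_of_injOn (fun s => 2 * P.leadingCoeff * s)
  · intro s hs
    rw [mem_coe, mem_filter, pat_translate hP] at hs
    rw [mem_coe, bad, mem_filter]
    exact ⟨mem_univ _, hs.2⟩
  · intro s _ s' _ h
    have h3 : 2 * P.leadingCoeff * (s - s') = 0 := by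
      have h' : 2 * P.leadingCoeff * s = 2 * P.leadingCoeff * s' := h
      linear_combination h'
    have h4 : (2 : ZMod p) * P.leadingCoeff ≠ 0 := mul_ne_zero (by exact_mod_cast h2) hl
    exact sub_eq_zero.1 ((mul_eq_zero.1 h3).resolve_left h4)

end Pool.Agent.H12.LT
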