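import Mathlib

/-!
# Linear twists of a polynomial

For a polynomial `f` of degree `d ≥ 2` over `ZMod p` (`p` prime, not dividing `d`) and sets `A`,
`B`, `E` of residues, the number of the pairs `x ≠ y`, `x ∈ A`, `y ∈ B`, with
`y + g(x) - g(y) ∈ E`, `g = f + t X`, is at least half of the expected number for all but
`4 d p ^ 3 |A| |B| / (|E| D ^ 2)` of the `t`, where `D` is the number of the pairs `x ≠ y`.
Proof: second moment of the number of the lines `z = (y + f(x) - f(y)) + t (x - y)` through the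
points `(t, z)`.
-/

set_option autoImplicit false

open Polynomial Finset

namespace Pool.Agent.H12.LT

variable {p : ℕ} [Fact p.Prime]

/-- The pairs of different elements of `A` and `B`. -/
def prs (A B : Finset (ZMod p)) : Finset (ZMod p × ZMod p) := (A ×ˢ B).filter fun q => q.1 ≠ q.2

/-- The number of the pairs `x ≠ y` whose line passes through the point `(t, z)`. -/
def cnt (A B : Finset (ZMod p)) (f : (ZMod p)[X]) (t z : ZMod p) : ℕ :=
  ((prs A B).filter fun q => q.2 + f.eval q.1 - f.eval q.2 + t * (q.1 - q.2) = z).card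

/-- The number of the coincidences between the lines. -/
def coi (A B : Finset (ZMod p)) (f : (ZMod p)[X]) : ℕ :=
  (((prs A B) ×ˢ (prs A B)).filter fun r => r.1.1 - r.1.2 = r.2.1 - r.2.2 ∧
    r.1.2 + f.eval r.1.1 - f.eval r.1.2 = r.2.2 + f.eval r.2.1 - f.eval r.2.2).card

theorem sum_cnt (A B : Finset (ZMod p)) (f : (ZMod p)[X]) (t : ZMod p) :
    ∑ z, cnt A B f t z = (prs A B).card := by
  unfold cnt
  rw [card_eq_sum_card_fiberwise (f := fun q : ZMod p × ZMod p =>
    q.2 + f.eval q.1 - f.eval q.2 + t * (q.1 - q.2)) (t := univ) (fun _ _ => by simp)]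

theorem card_sol (a b c d : ZMod p) : (univ.filter fun t : ZMod p => a + t * b = c + t * d).card ≤
    1 + if b = d ∧ a = c then p else 0 := by
  by_cases hbd : b = d
  · by_cases hac : a = c
    · rw [if_pos ⟨hbd, hac⟩]
      refine (card_le_univ _).trans ?_
      rw [ZMod.card]
      omega
    · rw [if_neg (fun h => hac h.2)]
      rw [filter_false_of_mem, card_empty]
      · omega
      · intro t _ h
        apply hac
        rw [hbd] at h
        exact add_right_cancel h
  · rw [if_neg (fun h => hbd h.1), add_zero]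
    rw [card_le_one]
    intro s hs t ht
    rw [mem_filter] at hs ht
    have h1 : (s - t) * (b - d) = 0 := by
      linear_combination hs.2 - ht.2
    rcases mul_eq_zero.1 h1 with h | h
    · exact sub_eq_zero.1 h
    · exact absurd (sub_eq_zero.1 h) hbd

theorem sum_cnt_sq (A B : Finset (ZMod p)) (f : (ZMod p)[X]) :
    ∑ t, ∑ z, cnt A B f t z ^ 2 ≤ (prs A B).card ^ 2 + p * coi A B f := by
  have h1 : ∀ t, ∑ z, cnt A B f t z ^ 2 = (((prs A B) ×ˢ (prs A B)).filter fun r =>
      r.1.2 + f.eval r.1.1 - f.eval r.1.2 + t * (r.1.1 - r.1.2) =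
      r.2.2 + f.eval r.2.1 - f.eval r.2.2 + t * (r.2.1 - r.2.2)).card := by
    intro t
    rw [card_eq_sum_card_fiberwise (f := fun r : (ZMod p × ZMod p) × (ZMod p × ZMod p) =>
      r.1.2 + f.eval r.1.1 - f.eval r.1.2 + t * (r.1.1 - r.1.2)) (t := univ)
      (fun _ _ => by simp)]
    apply sum_congr rfl
    intro z _
    rw [sq, cnt, ← card_product]
    congr 1
    ext r
    simp only [mem_product, mem_filter]
    constructor
    · rintro ⟨⟨h1, h2⟩, h3, h4⟩
      exact ⟨⟨⟨h1, h3⟩, h2.trans h4.symm⟩, h2⟩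
    · rintro ⟨⟨⟨h1, h3⟩, h2⟩, h4⟩
      exact ⟨⟨h1, h4⟩, h3, h2.symm.trans h4⟩
  simp only [h1]
  have h2 : ∑ t : ZMod p, (((prs A B) ×ˢ (prs A B)).filter fun r =>
      r.1.2 + f.eval r.1.1 - f.eval r.1.2 + t * (r.1.1 - r.1.2) =
      r.2.2 + f.eval r.2.1 - f.eval r.2.2 + t * (r.2.1 - r.2.2)).card =
      ∑ r ∈ (prs A B) ×ˢ (prs A B), (univ.filter fun t : ZMod p =>
        r.1.2 + f.eval r.1.1 - f.eval r.1.2 + t * (r.1.1 - r.1.2) =
        r.2.2 + f.eval r.2.1 - f.eval r.2.2 + t * (r.2.1 - r.2.2)).card := by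
    simp only [card_filter]
    exact sum_comm
  rw [h2]
  calc ∑ r ∈ (prs A B) ×ˢ (prs A B), (univ.filter fun t : ZMod p =>
        r.1.2 + f.eval r.1.1 - f.eval r.1.2 + t * (r.1.1 - r.1.2) =
        r.2.2 + f.eval r.2.1 - f.eval r.2.2 + t * (r.2.1 - r.2.2)).card
      ≤ ∑ r ∈ (prs A B) ×ˢ (prs A B), (1 + if r.1.1 - r.1.2 = r.2.1 - r.2.2 ∧
          r.1.2 + f.eval r.1.1 - f.eval r.1.2 = r.2.2 + f.eval r.2.1 - f.eval r.2.2
          then p else 0) := sum_le_sum fun r _ => card_sol _ _ _ _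
    _ = (prs A B).card ^ 2 + p * coi A B f := by
        rw [sum_add_distrib, sum_const, smul_eq_mul, mul_one, card_product, ← sq, coi,
          ← sum_filter, sum_const, smul_eq_mul, mul_comm p]

end Pool.Agent.H12.LT
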