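import Pool.Agent.H12.LT.Cor

/-!
# The theorem
-/

set_option autoImplicit false

open Polynomial Finset

namespace Pool.Agent.H12.LT

theorem ncard_filter {p : ℕ} [Fact p.Prime] (Q : ZMod p → Prop) [DecidablePred Q] :
    {t : ZMod p | Q t}.ncard = (univ.filter Q).card := by
  rw [← Set.ncard_coe_finset]
  congr 1
  ext t
  simp

theorem part_one (p : ℕ) (hp : p.Prime) (P : (ZMod p)[X]) (hP : 2 ≤ P.natDegree)
    (hd : ¬ p ∣ P.natDegree) (A B E : Finset (ZMod p)) (D : ℕ)
    (hD : D = ((A ×ˢ B).filter fun q : ZMod p × ZMod p => q.1 ≠ q.2).card) :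
    {t : ZMod p | 2 * p * ((A ×ˢ B).filter fun q : ZMod p × ZMod p => q.1 ≠ q.2 ∧
      q.2 + (P + C t * X).eval q.1 - (P + C t * X).eval q.2 ∈ E).card < E.card * D}.ncard *
      (E.card * D ^ 2) ≤ 4 * P.natDegree * p ^ 3 * (A.card * B.card) := by
  haveI : Fact p.Prime := ⟨hp⟩
  have hd' : (P.natDegree : ZMod p) ≠ 0 := fun h => hd ((ZMod.natCast_eq_zero_iff _ _).1 h)
  have h := card_bad hP hd' A B E
  unfold bad pat prs at h
  simp only [filter_filter] at h
  rw [hD, ncard_filter]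
  exact h

theorem part_two (p : ℕ) (hp : p.Prime) (hp2 : p ≠ 2) (P : (ZMod p)[X]) (hP : P.natDegree = 2)
    (A B E : Finset (ZMod p)) (D : ℕ)
    (hD : D = ((A ×ˢ B).filter fun q : ZMod p × ZMod p => q.1 ≠ q.2).card) :
    {s : ZMod p | 2 * p * ((A.image (· + s) ×ˢ B.image (· + s)).filter
      fun q : ZMod p × ZMod p => q.1 ≠ q.2 ∧
        q.2 + P.eval q.1 - P.eval q.2 ∈ E.image (· + s)).card < E.card * D}.ncard *
      (E.card * D ^ 2) ≤ 8 * p ^ 3 * (A.card * B.card) := by
  haveI : Fact p.Prime := ⟨hp⟩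
  have h := card_bad_translate hP hp2 A B E
  unfold pat prs at h
  simp only [filter_filter] at h
  rw [hD, ncard_filter]
  exact h

theorem dense_translate {p : ℕ} [Fact p.Prime] (hp : 100 ≤ p) {P : (ZMod p)[X]}
    (hP : P.natDegree = 2) {A : Finset (ZMod p)} (hA : (p : ℝ) ^ (0.99 : ℝ) < A.card) :
    ({s : ZMod p | ¬ HasPat (A.image (· + s)) P}.ncard : ℝ) ≤ 10 * (p : ℝ) ^ (0.03 : ℝ) := by
  have h2 : ((2 : ℕ) : ZMod p) ≠ 0 := by
    intro h
    rw [ZMod.natCast_eq_zero_iff] at h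
    have := ((Nat.prime_dvd_prime_iff_eq (Fact.out : p.Prime) Nat.prime_two).1 h)
    omega
  have hl : P.leadingCoeff ≠ 0 := by
    rw [Ne, leadingCoeff_eq_zero]
    intro h0
    rw [h0, natDegree_zero] at hP
    omega
  have hd : (P.natDegree : ZMod p) ≠ 0 := by rw [hP]; exact h2
  have h1 := dense_twist hp (by omega) hd hA
  rw [hP] at h1
  refine le_trans ?_ (h1.trans_eq (by push_cast; ring))
  have h3 : {s : ZMod p | ¬ HasPat (A.image (· + s)) P}.ncard ≤
      {t : ZMod p | ¬ HasPat A (P + C t * X)}.ncard := by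
    apply Set.ncard_le_ncard_of_injOn (fun s => 2 * P.leadingCoeff * s) _ _ (Set.toFinite _)
    · intro s hs hA'
      apply hs
      obtain ⟨x, hx, y, hy, hne, hz⟩ := hA'
      refine ⟨x + s, mem_image_of_mem _ hx, y + s, mem_image_of_mem _ hy,
        fun h => hne (add_right_cancel h), ?_⟩
      rw [mem_image]
      refine ⟨_, hz, ?_⟩
      have h5 := eval_quad hP x y s
      simp only [eval_add, eval_mul, eval_C, eval_X]
      linear_combination -h5
    · intro s _ s' _ h
      have h3 : 2 * P.leadingCoeff * (s - s') = 0 := by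
        have h' : 2 * P.leadingCoeff * s = 2 * P.leadingCoeff * s' := h
        linear_combination h'
      have h4 : (2 : ZMod p) * P.leadingCoeff ≠ 0 := mul_ne_zero (by exact_mod_cast h2) hl
      exact sub_eq_zero.1 ((mul_eq_zero.1 h3).resolve_left h4)
  exact_mod_cast h3

open Classical in
theorem part_three (P : ℤ[X]) (hP : 2 ≤ P.natDegree) : ∃ p₀ : ℕ, ∀ p : ℕ, p.Prime → p₀ ≤ p →
    ∀ A : Finset (ZMod p), (p : ℝ) ^ (0.99 : ℝ) < A.card →
      (((range p).filter fun t : ℕ => ¬ ∃ x ∈ A, ∃ y ∈ A, x ≠ y ∧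
        y + eval x (map (Int.castRingHom (ZMod p)) (P + C (t : ℤ) * X)) -
          eval y (map (Int.castRingHom (ZMod p)) (P + C (t : ℤ) * X)) ∈ A).card : ℝ) ≤
        5 * P.natDegree * (p : ℝ) ^ (0.03 : ℝ) ∧
      (P.natDegree = 2 → ({s : ZMod p | ¬ ∃ x ∈ A.image (· + s), ∃ y ∈ A.image (· + s), x ≠ y ∧
        y + eval x (map (Int.castRingHom (ZMod p)) P) -
          eval y (map (Int.castRingHom (ZMod p)) P) ∈ A.image (· + s)}.ncard : ℝ) ≤
        10 * (p : ℝ) ^ (0.03 : ℝ)) := by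
  refine ⟨100 + P.natDegree + P.leadingCoeff.natAbs, fun p hp hpp A hA => ?_⟩
  haveI : Fact p.Prime := ⟨hp⟩
  have hp100 : 100 ≤ p := by omega
  have hl0 : P.leadingCoeff ≠ 0 := by
    rw [Ne, leadingCoeff_eq_zero]
    intro h0
    rw [h0, natDegree_zero] at hP
    omega
  have hl : (Int.castRingHom (ZMod p)) P.leadingCoeff ≠ 0 := by
    rw [eq_intCast, Ne, ZMod.intCast_zmod_eq_zero_iff_dvd]
    intro h
    have h1 := Int.natAbs_dvd_natAbs.2 h
    rw [Int.natAbs_natCast] at h1
    have h2 := Nat.le_of_dvd (Int.natAbs_pos.2 hl0) h1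
    omega
  have hdeg : (map (Int.castRingHom (ZMod p)) P).natDegree = P.natDegree :=
    natDegree_map_of_leadingCoeff_ne_zero _ hl
  have hd : ((map (Int.castRingHom (ZMod p)) P).natDegree : ZMod p) ≠ 0 := by
    rw [hdeg]
    intro h
    have h1 := (ZMod.natCast_eq_zero_iff _ _).1 h
    have h2 := Nat.le_of_dvd (by omega) h1
    omega
  constructor
  · have h1 := dense_twist hp100 (P := map (Int.castRingHom (ZMod p)) P) (by omega) hd hA
    rw [hdeg] at h1
    refine le_trans ?_ h1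
    have h2 : ((range p).filter fun t : ℕ => ¬ ∃ x ∈ A, ∃ y ∈ A, x ≠ y ∧
        y + eval x (map (Int.castRingHom (ZMod p)) (P + C (t : ℤ) * X)) -
          eval y (map (Int.castRingHom (ZMod p)) (P + C (t : ℤ) * X)) ∈ A).card ≤
        {t : ZMod p | ¬ HasPat A (map (Int.castRingHom (ZMod p)) P + C t * X)}.ncard := by
      rw [← Set.ncard_coe_finset]
      apply Set.ncard_le_ncard_of_injOn (fun t : ℕ => (t : ZMod p)) _ _ (Set.toFinite _)
      · intro t ht hA'
        rw [mem_coe, mem_filter] at ht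
        apply ht.2
        obtain ⟨x, hx, y, hy, hne, hz⟩ := hA'
        refine ⟨x, hx, y, hy, hne, ?_⟩
        have e : map (Int.castRingHom (ZMod p)) (P + C (t : ℤ) * X) =
            map (Int.castRingHom (ZMod p)) P + C (t : ZMod p) * X := by
          rw [Polynomial.map_add, Polynomial.map_mul, map_C, map_X]
          simp
        rw [e]
        exact hz
      · intro s hs t ht h
        rw [mem_coe, mem_filter, mem_range] at hs ht
        have h3 : ((s : ℕ) : ZMod p) = ((t : ℕ) : ZMod p) := h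
        rw [ZMod.natCast_eq_natCast_iff'] at h3
        rw [Nat.mod_eq_of_lt hs.1, Nat.mod_eq_of_lt ht.1] at h3
        exact h3
    exact_mod_cast h2
  · intro h2
    exact dense_translate hp100 (P := map (Int.castRingHom (ZMod p)) P) (by rw [hdeg, h2]) hA

end Pool.Agent.H12.LT
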